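import Pool.Agent.W670.TL.Defs

set_option autoImplicit false

/-! Project TL, part EXT: adjoining a `q`-th root of a prime. -/

namespace Pool.Agent.W318.TL

open Pool.Agent.W670.TL NumberField Polynomial

theorem ext (h1 : S_INJ) (h2 : S_DSC) : S_EXT := by
  intro K hKN n q ℓ p hn hq hqℓ hp hpow
  have hq0 : 0 < q := hq.pos
  obtain ⟨α, hα⟩ := IsAlgClosed.exists_pow_nat_eq ((p : ℕ) : AlgebraicClosure ℚ) hq0
  have hirr : Irreducible (X ^ q - C ((p : ℕ) : K)) :=
    X_pow_sub_C_irreducible_of_prime hq (fun b hb => hpow ⟨b, hb⟩)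
  have hmon : (X ^ q - C ((p : ℕ) : K)).Monic := monic_X_pow_sub_C _ hq0.ne'
  let L : IntermediateField K (AlgebraicClosure ℚ) := IntermediateField.adjoin K {α}
  have hminα : X ^ q - C ((p : ℕ) : K) = minpoly K α :=
    minpoly.eq_of_irreducible_of_monic hirr (by simp [hα]) hmon
  have hint : IsIntegral K α := ⟨_, hmon, by simp [hα]⟩
  have hL : Module.finrank K L = q := by
    rw [IntermediateField.adjoin.finrank hint, ← hminα, natDegree_X_pow_sub_C]
  have hLf : FiniteDimensional K L := IntermediateField.adjoin.finiteDimensional hint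
  let M : IntermediateField ℚ (AlgebraicClosure ℚ) := L.restrictScalars ℚ
  have hKM : K ≤ M := fun x hx => L.algebraMap_mem ⟨x, hx⟩
  let algKM : Algebra K M := (IntermediateField.inclusion hKM).toRingHom.toAlgebra
  have htow : IsScalarTower ℚ K M :=
    IsScalarTower.of_algebraMap_eq (fun x => ((IntermediateField.inclusion hKM).commutes x).symm)
  let e : L ≃ₗ[K] M :=
    { toFun := fun x => ⟨x.1, x.2⟩
      invFun := fun x => ⟨x.1, x.2⟩
      map_add' := fun _ _ => rfl
      map_smul' := fun c x => Subtype.ext (by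
        rw [RingHom.id_apply, Algebra.smul_def, Algebra.smul_def]
        rfl)
      left_inv := fun _ => rfl
      right_inv := fun _ => rfl }
  have hMf : FiniteDimensional K M := Module.Finite.equiv e
  have hMq : Module.finrank K M = q := by rw [← e.finrank_eq, hL]
  have hMQ : FiniteDimensional ℚ M := FiniteDimensional.trans ℚ K M
  have hMN : NumberField M := { to_charZero := inferInstance, to_finiteDimensional := hMQ }
  have hfr : Module.finrank ℚ M = q * n := by
    rw [← Module.finrank_mul_finrank ℚ K M, hn, hMq, mul_comm]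
  let a : M := ⟨α, IntermediateField.mem_adjoin_simple_self K α⟩
  have ha : a ^ q = ((p : ℕ) : M) := Subtype.ext (by simpa [a] using hα)
  have hmina : X ^ q - C ((p : ℕ) : K) = minpoly K a :=
    minpoly.eq_of_irreducible_of_monic hirr (by simp [ha]) hmon
  have hadj : IntermediateField.adjoin K {a} = ⊤ := by
    rw [Field.primitive_element_iff_minpoly_natDegree_eq, ← hmina, natDegree_X_pow_sub_C, hMq]
  refine ⟨M, hMN, hfr, ⟨a, ha⟩, ?_, ?_⟩
  · have := h2 K M q p a hMq hq0 hp.pos ha hadj
    rw [hn] at this
    exact this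
  · exact h1 K M ℓ (by rw [hMq]; exact hqℓ)

end Pool.Agent.W318.TL
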